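import Mathlib
import Pool.Agent.Lib.MP_f8e9b8_lc.Indep

/-!
# MP_f8e9b8_lc : the equivalence of Q1 is neither provable nor refutable

There are a countable transitive model `M` of `ZFC` in which the equivalence holds and countable
transitive models `N` of `ZFC` in which it fails.  `M` is the least constructible model of `ZFC` and
`N` runs through forcing extensions of `M` without new reals, one for every regular cardinal
`κ > 2^ω` of `M`, in which `κ` gets the cofinality `ω`.  In all these models `V` is its own Chang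
model `C`, there are no mice over the reals with extenders in `C`, and `K(ℝ)^C = L(ℝ)^C = M`.
-/

set_option autoImplicit false

namespace Pool.Agent.Results.MP_f8e9b8_lc.Independence

open Pool.Agent.CR (V nat IsTransModelZFC)
open Pool.Agent.CM (IsTransModelZF)

/-- The set of all natural numbers. -/
noncomputable def omega : V := ZFSet.range nat

/-- The set of the reals (subsets of `ω`) of `K`. -/
noncomputable def reals (K : Set V) : V := ZFSet.sep (fun x => x ∈ K) (ZFSet.powerset omega)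

/-- The sequence `s` as a set: the set of the pairs `(n, s n)`. -/
noncomputable def seqSet (s : ℕ → V) : V := ZFSet.range (fun n => ZFSet.pair (nat n) (s n))

/-- `W` is an inner model of `N`: a transitive model of `ZF` which is contained in `N` and contains
all ordinals of `N`. -/
def IsInnerModel (N W : Set V) : Prop :=
  W ⊆ N ∧ IsTransModelZF W ∧ ∀ α ∈ N, α.IsOrdinal → α ∈ W

/-- `C` is the Chang model of `N`: the least inner model of `N` which contains all countable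
sequences of ordinals of `N`. -/
def IsChangModel (N C : Set V) : Prop :=
  IsInnerModel N C ∧ (∀ s : ℕ → V, (∀ n, (s n).IsOrdinal) → seqSet s ∈ N → seqSet s ∈ C) ∧
    ∀ W, IsInnerModel N W →
      (∀ s : ℕ → V, (∀ n, (s n).IsOrdinal) → seqSet s ∈ N → seqSet s ∈ W) → C ⊆ W

/-- `K` is the model `L(ℝ)` of `N`: the least inner model of `N` which contains all reals (subsets
of `ω`) of `N`. -/
def IsLOfReals (N K : Set V) : Prop :=
  IsInnerModel N K ∧ (∀ x ∈ N, x ⊆ omega → x ∈ K) ∧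
    ∀ W, IsInnerModel N W → (∀ x ∈ N, x ⊆ omega → x ∈ W) → K ⊆ W

/-- `κ` is an uncountable regular cardinal of `K`. -/
def IsRegularIn (K : Set V) (κ : V) : Prop :=
  κ ∈ K ∧ κ.IsOrdinal ∧ omega ∈ κ ∧
    ∀ μ ∈ κ, ∀ f ∈ K, ZFSet.IsFunc μ κ f → ∃ β ∈ κ, ∀ x y, ZFSet.pair x y ∈ f → y ∈ β

/-- `κ` is a measurable cardinal of `K`: in `K` there is a `κ`-complete nonprincipal ultrafilter
`U` on `κ`. -/
def IsMeasurableIn (K : Set V) (κ : V) : Prop :=
  κ ∈ K ∧ κ.IsOrdinal ∧ omega ∈ κ ∧ ∃ U ∈ K, (∀ X ∈ U, X ⊆ κ) ∧ κ ∈ U ∧ ∅ ∉ U ∧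
    (∀ X ∈ U, ∀ Y ∈ K, X ⊆ Y → Y ⊆ κ → Y ∈ U) ∧
    (∀ X ∈ K, X ⊆ κ → X ∈ U ∨ κ \ X ∈ U) ∧
    (∀ ξ ∈ κ, ({ξ} : V) ∉ U) ∧
    ∀ μ ∈ κ, ∀ f ∈ K, ZFSet.IsFunc μ U f →
      ZFSet.sep (fun β => ∀ x y, ZFSet.pair x y ∈ f → β ∈ y) κ ∈ U

/-- `κ` is greater than `2^ω` in `K`: no function of `K` maps the reals of `K` onto `κ`. -/
def ExceedsContinuumIn (K : Set V) (κ : V) : Prop :=
  ∀ f ∈ K, ZFSet.IsFunc (reals K) κ f → ∃ ξ ∈ κ, ∀ x, ZFSet.pair x ξ ∉ f

/-- The ordinal `κ` is uncountable in `N`: `κ > ω` and no function of `N` maps `ω` onto `κ`. -/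
def IsUncountableIn (N : Set V) (κ : V) : Prop :=
  omega ∈ κ ∧ ∀ f ∈ N, ZFSet.IsFunc omega κ f → ∃ ξ ∈ κ, ∀ n, ZFSet.pair n ξ ∉ f

/-- `κ` has countable cofinality in `N`: some sequence of `N` is cofinal in `κ`. -/
def HasCofOmega (N : Set V) (κ : V) : Prop :=
  ∃ s : ℕ → V, (∀ n, s n ∈ κ) ∧ seqSet s ∈ N ∧ ∀ β ∈ κ, ∃ n, β ∈ s n

/-- `N` is a countable transitive model of `ZFC`, `C` is its Chang model, there are no mice over the
reals with extenders in `C` because no element of `C` is a transitive model of `ZF`, and `K` is the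
model `L(ℝ)` of `C`.  So `K` is the model `K(ℝ)^C` of `N`. -/
structure Situation (N C K : Set V) : Prop where
  countable : N.Countable
  zfc : IsTransModelZFC N
  chang : IsChangModel N C
  noMice : ∀ x ∈ C, ¬ IsTransModelZF {y | y ∈ x}
  lOfReals : IsLOfReals C K

/-- The equivalence of Q1 in `N`, `K` being the core model `K(ℝ)^C` of `N`. -/
def Equivalence (N K : Set V) : Prop :=
  ∀ κ ∈ N, κ.IsOrdinal → IsUncountableIn N κ →
    (IsMeasurableIn K κ ↔ IsRegularIn K κ ∧ HasCofOmega N κ)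

/-- The equivalence of Q1 is neither provable nor refutable in `ZFC` together with the existence of
`K(ℝ)^C`: it holds in the model `M`, and for every regular cardinal `κ > 2^ω` of `M` (there are
arbitrarily large ones) it fails at `κ` in some model `N` with `K(ℝ)^C = M`. -/
theorem result : ∃ M : Set V, (Situation M M M ∧ Equivalence M M) ∧
    (∀ α ∈ M, α.IsOrdinal → ∃ κ, α ∈ κ ∧ IsRegularIn M κ ∧ ExceedsContinuumIn M κ) ∧
    ∀ κ, IsRegularIn M κ → ExceedsContinuumIn M κ → ∃ N : Set V,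
      (Situation N N M ∧ ¬ Equivalence N M) ∧
      IsUncountableIn N κ ∧ IsRegularIn M κ ∧ HasCofOmega N κ ∧ ¬ IsMeasurableIn M κ := by
  obtain ⟨M, h1, h2, h3, h4, h5, h6, h7, h8, h9⟩ := Pool.Agent.CM.indep_thm
  refine ⟨M, ⟨⟨h1, h2, h3, h5, h4⟩, fun κ _ _ _ => ⟨fun h => absurd h (h6 κ), ?_⟩⟩, h8, ?_⟩
  · rintro ⟨h, s, a1, a2, a3⟩
    exact absurd a3 (h7 κ h s a1 a2)
  · intro κ hκ hκc
    obtain ⟨N, s, a1, a2, a3, a4, a5, a6, a7, a8, a9⟩ := h9 κ hκ hκc
    have b1 : IsUncountableIn N κ := ⟨hκ.2.2.1, a6⟩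
    have b2 : HasCofOmega N κ := ⟨s, a7, a8, a9⟩
    refine ⟨N, ⟨⟨a1, a2, a3, a5, a4⟩, fun h => ?_⟩, b1, hκ, b2, h6 κ⟩
    exact h6 κ ((h κ (a4.1.1 hκ.1) hκ.2.1 b1).2 ⟨hκ, b2⟩)

end Pool.Agent.Results.MP_f8e9b8_lc.Independence
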